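import Pool.Agent.Lib_helper51.FA.NonZero

/-!
# MP_ffa3cb_nt: the prime step of the Farey discrepancy in terms of the Mertens function

Seats: helper51 (proof), helper3 (the 2-adic clause `DeltaW p ≠ 0` was his proposal; he and
helper38, helper52 had the formula independently), helper38 (reading).
-/

set_option autoImplicit false

namespace Pool.Agent.Results.MP_ffa3cb_nt.PrimeStepFormula

open Finset
open Pool.Agent.Lib_helper51.FA

/-- the qualifying primes `p ≤ X` -/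
def qualifying (X : ℝ) : Set ℕ := {p | p.Prime ∧ Mertens p ≤ -3 ∧ (p : ℝ) ≤ X}

/-- `p` agrees -/
def Agrees (p : ℕ) : Prop := SignType.sign (DeltaW p) = SignType.sign (-Mertens p)

/-- Q1 of the problem, for a notion `P` of agreement -/
def Q1 (P : ℕ → Prop) : Prop := ∀ ε : ℝ, 0 < ε → ∃ X₀ : ℝ, ∀ X : ℝ, X₀ ≤ X →
  1 ≤ (qualifying X).ncard →
    (1 - ε) * (qualifying X).ncard ≤ ({p | p ∈ qualifying X ∧ P p}.ncard : ℝ)

/-- `∑_{2 ≤ d ≤ p - 1} M(⌊p/d⌋) / d` -/
noncomputable def tail (p : ℕ) : ℝ := ∑ d ∈ Icc 2 (p - 1), (Mertens (p / d) : ℝ) / d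

theorem agrees_iff {p : ℕ} (hp : p.Prime) (hM : Mertens p ≤ -3) :
    Agrees p ↔ -(Mertens p : ℝ) < tail p := by
  have h1 : SignType.sign (-Mertens p) = 1 := sign_pos (by omega)
  unfold Agrees
  rw [h1, sign_eq_one_iff, DeltaW_pos hp]
  rfl

/-- the exact formula for `ΔW(p)` and what it makes of Q1 -/
theorem result :
    (∀ p : ℕ, p.Prime → DeltaW p =
      ((p : ℝ) - 1) / (6 * p) * ∑ d ∈ Icc 1 (p - 1), (Mertens (p / d) : ℝ) / d) ∧
    (∀ p : ℕ, p.Prime → p ≠ 2 → DeltaW p ≠ 0) ∧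
    (∀ p : ℕ, p.Prime → Mertens p ≤ -3 → (Agrees p ↔ -(Mertens p : ℝ) < tail p)) ∧
    (Q1 Agrees ↔ Q1 fun p => -(Mertens p : ℝ) < tail p) := by
  refine ⟨fun p hp => DeltaW_mertens hp, fun p hp h2 => DeltaW_ne_zero hp h2,
    fun p hp hM => agrees_iff hp hM, ?_⟩
  · have e : ∀ X : ℝ, {p | p ∈ qualifying X ∧ Agrees p} =
        {p | p ∈ qualifying X ∧ -(Mertens p : ℝ) < tail p} := by
      intro X
      ext p
      constructor
      · rintro ⟨h1, h2⟩
        exact ⟨h1, (agrees_iff h1.1 h1.2.1).1 h2⟩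
      · rintro ⟨h1, h2⟩
        exact ⟨h1, (agrees_iff h1.1 h1.2.1).2 h2⟩
    unfold Q1
    simp only [e]

end Pool.Agent.Results.MP_ffa3cb_nt.PrimeStepFormula
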